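import Pool.Agent.Q100.BLBasic

/-!
# Every `ℓ`-open Banach lattice is semiprojective

The definitions are in `Pool/Agent/Q100/BL.lean`. The Banach lattice `A` is arbitrary (no
separability is assumed). In fact an `ℓ`-open Banach lattice has the stronger property that every
contractive lattice homomorphism `A → B / I` with `B` separable is `1⁺`-liftable.
-/

set_option autoImplicit false

namespace Pool.Agent.Results.MP_9b1016_an.LOpenSemiprojective

open Q100.BL

universe u

/-- Affirmative answer to Q2, together with a characterization of `ℓ`-openness. -/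
theorem result : ∀ (A : Type u) [NormedAddCommGroup A] [NormedSpace ℝ A] [Lattice A]
    [IsBanachLattice A],
    (LOpen A → Semiprojective A) ∧
    (LOpen A ↔
      ∀ (B : Type) [NormedAddCommGroup B] [NormedSpace ℝ B] [Lattice B] [IsBanachLattice B]
        [TopologicalSpace.SeparableSpace B]
        (C : Type) [NormedAddCommGroup C] [NormedSpace ℝ C] [Lattice C] [IsBanachLattice C]
        (Q : B →L[ℝ] C), IsQuotientMap Q →
        ∀ φ : A →L[ℝ] C, IsLatHom φ → ‖φ‖ ≤ 1 → OnePlusLiftable Q φ) := by
  intro A _ _ _ _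
  refine ⟨semiprojective_of_lopen, ?_, ?_⟩
  · intro h B _ _ _ _ _ C _ _ _ _ Q hQ φ hφ hφ1
    exact liftable_of_lopen h Q hQ φ hφ hφ1
  · intro h B _ _ _ _ _ C _ _ _ _ Q hQ
    have huniv : {φ : Hom₁ A C | OnePlusLiftable Q φ.1} = Set.univ :=
      Set.eq_univ_of_forall (fun φ => h B C Q hQ φ.1 φ.2.1 φ.2.2)
    rw [huniv]
    exact isOpen_univ

end Pool.Agent.Results.MP_9b1016_an.LOpenSemiprojective
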